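import Mathlib
import Pool.Agent.N753.DR.Stm3
import Pool.Agent.N415.DR.VK

/-!
# DR/VKG: coordinate changes

`x = (al * t + be) / (ga * t + de)`. The exceptional set is the one of `StmVk` together with the
minimal polynomials of the numbers `x` for which `1 / x` is exceptional.
-/

set_option autoImplicit false

namespace Pool.Agent.N707.DRVkG

open NumberField IsDedekindDomain Module Polynomial Height
open Pool.Agent.N753.DR Pool.Agent.N415.DRVK

/-! ### The reversed polynomial -/

section Rv
variable {K : Type} [Field K]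

/-- the monic reversed polynomial -/
noncomputable def rv (p : K[X]) : K[X] := C (p.coeff 0)⁻¹ * p.reverse

theorem rv_monic {p : K[X]} (hp : p.coeff 0 ≠ 0) : (rv p).Monic := by
  unfold rv Monic
  rw [leadingCoeff_mul, leadingCoeff_C, reverse_leadingCoeff, trailingCoeff_eq_coeff_zero hp,
    inv_mul_cancel₀ hp]

theorem rv_deg (p : K[X]) : (rv p).natDegree ≤ p.natDegree :=
  (natDegree_C_mul_le _ _).trans (reverse_natDegree_le p)

theorem rv_root {M : Type} [Field M] [Algebra K M] {p : K[X]} {x : M} (hx : x ≠ 0)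
    (h : aeval x p = 0) : aeval x⁻¹ (rv p) = 0 := by
  have : Invertible x := invertibleOfNonzero hx
  unfold rv
  rw [map_mul]
  have h1 : aeval x⁻¹ p.reverse = 0 := by
    have h2 := (eval₂_reverse_eq_zero_iff (algebraMap K M) x p).2 (by rw [← aeval_def]; exact h)
    rw [invOf_eq_inv] at h2
    rw [aeval_def]; exact h2
  rw [h1, mul_zero]

theorem coeff0_ne {M : Type} [Field M] [Algebra K M] {x : M} (hi : IsIntegral K x) (hx : x ≠ 0) :
    (minpoly K x).coeff 0 ≠ 0 := minpoly.coeff_zero_ne_zero hi hx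

theorem deg_inv_le {M : Type} [Field M] [Algebra K M] {x : M} (hi : IsIntegral K x) (hx : x ≠ 0) :
    (minpoly K x⁻¹).natDegree ≤ (minpoly K x).natDegree := by
  have h1 := minpoly.dvd K x⁻¹ (rv_root hx (minpoly.aeval K x))
  exact (natDegree_le_of_dvd h1 (rv_monic (coeff0_ne hi hx)).ne_zero).trans (rv_deg _)

theorem minpoly_inv {M : Type} [Field M] [Algebra K M] {x : M} (hi : IsIntegral K x)
    (hx : x ≠ 0) : minpoly K x⁻¹ = rv (minpoly K x) := by
  have hi' : IsIntegral K x⁻¹ := hi.inv
  have h1 := minpoly.dvd K x⁻¹ (rv_root hx (minpoly.aeval K x))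
  have h2 := deg_inv_le hi' (inv_ne_zero hx)
  rw [inv_inv] at h2
  have h3 := eq_of_monic_of_dvd_of_natDegree_le (minpoly.monic hi') (rv_monic (coeff0_ne hi hx)) h1
    ((rv_deg _).trans h2)
  exact h3.symm

theorem deg_inv {M : Type} [Field M] [Algebra K M] {x : M} (hi : IsIntegral K x)
    (hx : x ≠ 0) : (minpoly K x⁻¹).natDegree = (minpoly K x).natDegree := by
  have h2 := deg_inv_le hi.inv (inv_ne_zero hx)
  rw [inv_inv] at h2
  exact le_antisymm (deg_inv_le hi hx) h2

end Rv

section Count
variable {K : Type} [Field K] [NumberField K]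

/-- the exceptional set -/
def Ex (E : Set K[X]) : Set K[X] := E ∪ {p | p.coeff 0 ≠ 0 ∧ rv p ∈ E}

theorem atH_ne {r : ℕ} {U : ℝ} {p : K[X]} (h : AtH r U p) (h0 : p.coeff 0 ≠ 0) :
    AtH r U (rv p) ∧ rv (rv p) = p := by
  obtain ⟨M, i1, i2, i3, x, h1, h2, h3, h4⟩ := h
  have hfd : FiniteDimensional K M := Module.Finite.of_restrictScalars_finite ℚ K M
  have hi : IsIntegral K x := Algebra.IsIntegral.isIntegral x
  have hx : x ≠ 0 := by
    rintro rfl
    apply h0
    rw [← h3, minpoly.zero, coeff_X_zero]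
  have h5 := minpoly_inv hi hx
  have h6 := minpoly_inv hi.inv (inv_ne_zero hx)
  rw [inv_inv, h5, h3] at h6
  refine ⟨⟨M, i1, i2, i3, x⁻¹, h1, by rw [deg_inv hi hx, h2], by rw [h5, h3], ?_⟩, h6.symm⟩
  rw [logHeight₁_inv]
  exact h4

theorem ex_count {r : ℕ} {E : Set K[X]} {U : ℝ} (hE1 : {p | p ∈ E ∧ AtH r U p}.Finite)
    (hE2 : ({p | p ∈ E ∧ AtH r U p}.ncard : ℝ) ≤ Real.exp ((r + 1) * U - √U)) :
    {p | p ∈ Ex E ∧ AtH r U p}.Finite ∧
    ({p | p ∈ Ex E ∧ AtH r U p}.ncard : ℝ) ≤ 2 * Real.exp ((r + 1) * U - √U) := by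
  set A : Set K[X] := {p | p ∈ E ∧ AtH r U p} with hA
  set T : Set K[X] := {p | (p.coeff 0 ≠ 0 ∧ rv p ∈ E) ∧ AtH r U p} with hT
  have hmaps : ∀ p ∈ T, rv p ∈ A := fun p hp => ⟨hp.1.2, (atH_ne hp.2 hp.1.1).1⟩
  have hinj : Set.InjOn rv T := by
    intro p hp p' hp' h
    rw [← (atH_ne hp.2 hp.1.1).2, h, (atH_ne hp'.2 hp'.1.1).2]
  have hTf : T.Finite := Set.Finite.of_injOn (t := A) (fun p hp => hmaps p hp) hinj hE1
  have hTn : T.ncard ≤ A.ncard := Set.ncard_le_ncard_of_injOn rv hmaps hinj hE1
  have hU : {p | p ∈ Ex E ∧ AtH r U p} = A ∪ T := by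
    ext p
    simp only [Ex, hA, hT, Set.mem_ofPred_eq, Set.mem_union]
    tauto
  rw [hU]
  refine ⟨hE1.union hTf, ?_⟩
  have h1 : ((A ∪ T).ncard : ℝ) ≤ A.ncard + T.ncard := by exact_mod_cast Set.ncard_union_le A T
  have h2 : (T.ncard : ℝ) ≤ A.ncard := by exact_mod_cast hTn
  linarith

end Count

/-! ### Good primes -/

section Good
variable {k : Type} [Field k] [NumberField k]

theorem sep1 {z : k} (hz : z ≠ 0) : ∃ n : ℕ, n ≠ 0 ∧
    ∀ (M : Type) [Field M] [NumberField M] [Algebra k M] (w : HeightOneSpectrum (𝓞 M)),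
      (n : 𝓞 M) ∉ w.asIdeal → w.valuation M (algebraMap k M z) = 1 := by
  obtain ⟨n1, h1, h1'⟩ := sep hz
  obtain ⟨n2, h2, h2'⟩ := sep (inv_ne_zero hz)
  refine ⟨n1 * n2, mul_ne_zero h1 h2, ?_⟩
  intro M _ _ _ w hw
  have k1 := h1' M w (fun h => hw (by rw [Nat.cast_mul]; exact Ideal.mul_mem_right _ _ h))
  have k2 := h2' M w (fun h => hw (by rw [Nat.cast_mul]; exact Ideal.mul_mem_left _ _ h))
  rw [not_lt] at k1 k2
  rw [map_inv₀, map_inv₀] at k2
  refine le_antisymm ?_ k1
  have hne : w.valuation M (algebraMap k M z) ≠ 0 := by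
    intro h
    rw [h] at k1
    exact absurd k1 (by simp)
  exact (one_le_inv₀ (zero_lt_iff.2 hne)).1 k2

theorem sepZ (Z : Finset k) : ∃ n : ℕ, n ≠ 0 ∧
    ∀ (M : Type) [Field M] [NumberField M] [Algebra k M] (w : HeightOneSpectrum (𝓞 M)),
      (n : 𝓞 M) ∉ w.asIdeal → ∀ z ∈ Z, z ≠ 0 → w.valuation M (algebraMap k M z) = 1 := by
  classical
  induction Z using Finset.induction_on with
  | empty => exact ⟨1, one_ne_zero, fun M _ _ _ w _ z hz => absurd hz (Finset.notMem_empty z)⟩
  | insert z Z hz ih =>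
    obtain ⟨n, hn, hn'⟩ := ih
    by_cases hz0 : z = 0
    · refine ⟨n, hn, ?_⟩
      intro M _ _ _ w hw z' hz' hz'0
      rcases Finset.mem_insert.1 hz' with rfl | h
      · exact absurd hz0 hz'0
      · exact hn' M w hw z' h hz'0
    · obtain ⟨m, hm, hm'⟩ := sep1 hz0
      refine ⟨m * n, mul_ne_zero hm hn, ?_⟩
      intro M _ _ _ w hw z' hz' hz'0
      rcases Finset.mem_insert.1 hz' with rfl | h
      · exact hm' M w (fun h => hw (by rw [Nat.cast_mul]; exact Ideal.mul_mem_right _ _ h))
      · exact hn' M w (fun h => hw (by rw [Nat.cast_mul]; exact Ideal.mul_mem_left _ _ h)) z' h hz'0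

end Good

/-! ### Valuations -/

section Val
variable {M Γ : Type} [Field M] [LinearOrderedCommGroupWithZero Γ] (v : Valuation M Γ)

theorem near1 {A B G D x t a b : M} (hD : v (A * D - B * G) = 1) (hB : v B ≤ 1)
    (hG : v G ≤ 1) (hDD : v D ≤ 1) (hx : x * (G * t + D) = A * t + B)
    (hb : b * (G * a + D) = A * a + B) (hga : v (G * a + D) = 1) (hx1 : v x ≤ 1)
    (hxb : v (x - b) < 1) : v t ≤ 1 ∧ v (t - a) < 1 := by
  have e1 : (A - G * x) * (G * t + D) = A * D - B * G := by linear_combination (-G) * hx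
  have e2 : (A - G * b) * (G * a + D) = A * D - B * G := by linear_combination (-G) * hb
  have h2 : v (A - G * b) = 1 := by
    have := congrArg v e2
    rw [map_mul, hga, mul_one, hD] at this
    exact this
  have h3 : v (G * (x - b)) < 1 := by
    rw [map_mul]
    exact lt_of_le_of_lt (mul_le_of_le_one_left' hG) hxb
  have h4 : v (A - G * x) = 1 := by
    have h5 : A - G * x = (A - G * b) - G * (x - b) := by ring
    rw [h5, Valuation.map_sub_eq_of_lt_left v (by rw [h2]; exact h3), h2]
  have h6 : v (G * t + D) = 1 := by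
    have := congrArg v e1
    rw [map_mul, h4, one_mul, hD] at this
    exact this
  have e3 : t * (A - G * x) = D * x - B := by linear_combination (-1 : M) * hx
  have h7 : v t ≤ 1 := by
    have := congrArg v e3
    rw [map_mul, h4, mul_one] at this
    rw [this]
    refine (Valuation.map_sub v _ _).trans (max_le ?_ hB)
    rw [map_mul]
    exact mul_le_one' hDD hx1
  refine ⟨h7, ?_⟩
  have e4 : (x - b) * (G * t + D) * (G * a + D) = (A * D - B * G) * (t - a) := by
    linear_combination (G * a + D) * hx - (G * t + D) * hb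
  have := congrArg v e4
  rw [map_mul, map_mul, map_mul, h6, hga, hD, mul_one, mul_one, one_mul] at this
  rw [← this]
  exact hxb

theorem near2 {A B G D x t a y : M} (hA : v A ≤ 1) (hB : v B ≤ 1)
    (hG : v G = 1) (hDD : v D ≤ 1) (hx : x * (G * t + D) = A * t + B)
    (hga : G * a + D = 0) (hy : x * y = 1) (hy1 : v y < 1) : v t ≤ 1 ∧ v (t - a) < 1 := by
  have hx' : G * t + D = y * (A * t + B) := by
    rw [← hx]; linear_combination (-(G * t + D)) * hy
  have h1 : v (A * y - G) = 1 := by
    have h2 : v (A * y) < v G := by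
      rw [map_mul, hG]
      exact lt_of_le_of_lt (mul_le_of_le_one_left' hA) hy1
    rw [Valuation.map_sub_eq_of_lt_right v h2, hG]
  have e3 : t * (A * y - G) = D - B * y := by linear_combination (-1 : M) * hx'
  have h7 : v t ≤ 1 := by
    have := congrArg v e3
    rw [map_mul, h1, mul_one] at this
    rw [this]
    refine (Valuation.map_sub v _ _).trans (max_le hDD ?_)
    rw [map_mul]
    exact mul_le_one' hB hy1.le
  refine ⟨h7, ?_⟩
  have e4 : G * (t - a) = y * (A * t + B) := by linear_combination hx' - hga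
  have := congrArg v e4
  rw [map_mul, hG, one_mul, map_mul] at this
  rw [this]
  refine lt_of_le_of_lt (mul_le_of_le_one_right' ?_) hy1
  refine (Valuation.map_add v _ _).trans (max_le ?_ hB)
  rw [map_mul]
  exact mul_le_one' hA h7

end Val

/-! ### Heights -/

section Hts
variable {k : Type} [Field k] [NumberField k]

theorem ht_lin (z1 z2 : k) : ∃ C : ℝ, 0 ≤ C ∧ ∀ (M : Type) [Field M] [NumberField M]
    [Algebra k M] (s : M), logHeight₁ (algebraMap k M z1 * s + algebraMap k M z2) ≤
      logHeight₁ s + finrank k M * C := by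
  obtain ⟨C, hC, h⟩ := ht_eval 1 (Polynomial.C z1 * X + Polynomial.C z2)
    (natDegree_linear_le)
  refine ⟨C, hC, ?_⟩
  intro M _ _ _ s
  have h1 := h M s
  rw [map_add, map_mul, aeval_C, aeval_C, aeval_X, Nat.cast_one, one_mul] at h1
  exact h1

theorem ht_mob {A B G D : k} (hD : A * D - B * G ≠ 0) : ∃ C : ℝ, 0 ≤ C ∧ ∀ (M : Type) [Field M]
    [NumberField M] [Algebra k M] (t x : M),
    x * (algebraMap k M G * t + algebraMap k M D) = algebraMap k M A * t + algebraMap k M B →
    algebraMap k M G * t + algebraMap k M D ≠ 0 →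
    logHeight₁ t ≤ logHeight₁ x + finrank k M * C := by
  by_cases hG : G = 0
  · subst hG
    rw [mul_zero, sub_zero] at hD
    have hA : A ≠ 0 := left_ne_zero_of_mul hD
    obtain ⟨C, hC, h⟩ := ht_lin (D / A) (-B / A)
    refine ⟨C, hC, ?_⟩
    intro M _ _ _ t x hx _
    have hA' : algebraMap k M A ≠ 0 := by rwa [Ne, map_eq_zero]
    have h1 := h M x
    have h2 : algebraMap k M (D / A) * x + algebraMap k M (-B / A) = t := by
      rw [map_div₀, map_div₀, map_neg]
      rw [map_zero, zero_mul, zero_add] at hx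
      field_simp
      linear_combination hx
    rwa [h2] at h1
  · obtain ⟨C1, hC1, h1⟩ := ht_lin (-G) A
    obtain ⟨C2, hC2, h2⟩ := ht_lin ((A * D - B * G) / G) (-D / G)
    refine ⟨C1 + C2, add_nonneg hC1 hC2, ?_⟩
    intro M _ _ _ t x hx hne
    have hG' : algebraMap k M G ≠ 0 := by rwa [Ne, map_eq_zero]
    have k1 := h1 M x
    have k2 := h2 M (algebraMap k M (-G) * x + algebraMap k M A)⁻¹
    rw [logHeight₁_inv] at k2
    have hu : (algebraMap k M (-G) * x + algebraMap k M A) *
        (algebraMap k M G * t + algebraMap k M D) = algebraMap k M (A * D - B * G) := by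
      rw [map_neg, map_sub, map_mul, map_mul]
      linear_combination (-algebraMap k M G) * hx
    have hu0 : algebraMap k M (-G) * x + algebraMap k M A ≠ 0 := by
      intro h
      rw [h, zero_mul] at hu
      exact hD ((map_eq_zero (algebraMap k M)).1 hu.symm)
    have h3 : algebraMap k M ((A * D - B * G) / G) *
        (algebraMap k M (-G) * x + algebraMap k M A)⁻¹ + algebraMap k M (-D / G) = t := by
      rw [map_div₀, ← hu, map_div₀, map_neg (algebraMap k M) D]
      field_simp
      ring
    rw [h3] at k2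
    have h5 : (finrank k M : ℝ) * (C1 + C2) = finrank k M * C1 + finrank k M * C2 := by ring
    linarith

end Hts

/-! ### Fields -/

section Fld

theorem mem_mob {k M : Type} [Field k] [Field M] [Algebra k M] {A B G D : k} {t x : M}
    (N : IntermediateField k M) (ht : t ∈ N)
    (hx : x * (algebraMap k M G * t + algebraMap k M D) = algebraMap k M A * t + algebraMap k M B)
    (hne : algebraMap k M G * t + algebraMap k M D ≠ 0) : x ∈ N := by
  have h1 : x = (algebraMap k M A * t + algebraMap k M B) /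
      (algebraMap k M G * t + algebraMap k M D) := by
    rw [eq_div_iff hne, hx]
  rw [h1]
  exact N.div_mem (N.add_mem (N.mul_mem (N.algebraMap_mem A) ht) (N.algebraMap_mem B))
    (N.add_mem (N.mul_mem (N.algebraMap_mem G) ht) (N.algebraMap_mem D))

theorem adj_mob {k M : Type} [Field k] [Field M] [Algebra k M] {A B G D : k} {t x : M}
    (hD : A * D - B * G ≠ 0) (ht : IntermediateField.adjoin k {t} = ⊤)
    (hx : x * (algebraMap k M G * t + algebraMap k M D) = algebraMap k M A * t + algebraMap k M B)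
    (hne : algebraMap k M G * t + algebraMap k M D ≠ 0) : IntermediateField.adjoin k {x} = ⊤ := by
  rw [eq_top_iff, ← ht, IntermediateField.adjoin_simple_le_iff]
  have hu : (algebraMap k M (-G) * x + algebraMap k M A) *
      (algebraMap k M G * t + algebraMap k M D) = algebraMap k M (A * D - B * G) := by
    rw [map_neg, map_sub, map_mul, map_mul]
    linear_combination (-algebraMap k M G) * hx
  have hu0 : algebraMap k M (-G) * x + algebraMap k M A ≠ 0 := by
    intro h
    rw [h, zero_mul] at hu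
    exact hD ((map_eq_zero (algebraMap k M)).1 hu.symm)
  refine mem_mob (A := D) (B := -B) (G := -G) (D := A) _
    (IntermediateField.mem_adjoin_simple_self k x) ?_ hu0
  rw [map_neg, map_neg]
  linear_combination (-1 : M) * hx

theorem deg_mob {K k : Type} [Field K] [NumberField K] [Field k] [NumberField k] [Algebra K k]
    {al be ga de : K} {a b : k}
    (hb : b * (algebraMap K k ga * a + algebraMap K k de) =
      algebraMap K k al * a + algebraMap K k be)
    (hne : algebraMap K k ga * a + algebraMap K k de ≠ 0) :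
    (minpoly K b).natDegree ≤ (minpoly K a).natDegree := by
  have hfd : FiniteDimensional K k := Module.Finite.of_restrictScalars_finite ℚ K k
  have hi : IsIntegral K a := Algebra.IsIntegral.isIntegral a
  have hi' : IsIntegral K b := Algebra.IsIntegral.isIntegral b
  rw [← IntermediateField.adjoin.finrank hi, ← IntermediateField.adjoin.finrank hi']
  refine IntermediateField.finrank_le_of_le_right ?_
  rw [IntermediateField.adjoin_simple_le_iff]
  exact mem_mob _ (IntermediateField.mem_adjoin_simple_self K a) hb hne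

theorem deg_le {K k M : Type} [Field K] [NumberField K] [Field k] [NumberField k]
    [Algebra K k] [Field M] [NumberField M] [Algebra K M] [Algebra k M] [IsScalarTower K k M]
    {x : M} (hx : IntermediateField.adjoin k {x} = ⊤) :
    finrank k M ≤ (minpoly K x).natDegree := by
  have hfdM : FiniteDimensional K M := Module.Finite.of_restrictScalars_finite ℚ K M
  have hfdkM : FiniteDimensional k M := Module.Finite.of_restrictScalars_finite ℚ k M
  have h1 : finrank k M = (minpoly k x).natDegree := by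
    rw [← IntermediateField.adjoin.finrank (K := k) (Algebra.IsIntegral.isIntegral x), hx,
      IntermediateField.finrank_top']
  rw [h1]
  have h2 : minpoly k x ∣ (minpoly K x).map (algebraMap K k) :=
    minpoly.dvd_map_of_isScalarTower K k x
  have h3 := natDegree_le_of_dvd h2
    ((minpoly.monic (Algebra.IsIntegral.isIntegral x)).map _).ne_zero
  rwa [natDegree_map] at h3

end Fld

/-! ### The theorem -/

theorem t (h : StmVk) : StmVkG := by
  classical
  intro K _ _ r hr
  obtain ⟨E, hE1, hE2⟩ := h K r hr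
  refine ⟨Ex E, fun U hU => ex_count (hE1 U hU).1 (hE1 U hU).2, ?_⟩
  intro k _ _ _ q a ha hdeg al be ga de hΔ S κ hκ
  obtain ⟨A, hA⟩ : ∃ A : k, A = algebraMap K k al := ⟨_, rfl⟩
  obtain ⟨B, hB⟩ : ∃ B : k, B = algebraMap K k be := ⟨_, rfl⟩
  obtain ⟨G, hG⟩ : ∃ G : k, G = algebraMap K k ga := ⟨_, rfl⟩
  obtain ⟨D, hD⟩ : ∃ D : k, D = algebraMap K k de := ⟨_, rfl⟩
  have hΔk : A * D - B * G ≠ 0 := by
    rw [hA, hB, hG, hD, ← map_mul, ← map_mul, ← map_sub]
    rwa [Ne, map_eq_zero]
  obtain ⟨J1, hJ1⟩ : ∃ J1 : Finset (Fin q), ∀ j, j ∈ J1 ↔ G * a j + D ≠ 0 :=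
    ⟨Finset.univ.filter (fun j => G * a j + D ≠ 0), fun j => by
      rw [Finset.mem_filter]; exact ⟨fun h => h.2, fun h => ⟨Finset.mem_univ _, h⟩⟩⟩
  obtain ⟨gb, hgb⟩ : ∃ gb : Fin q → k, ∀ j ∈ J1, gb j * (G * a j + D) = A * a j + B :=
    ⟨fun j => (A * a j + B) / (G * a j + D), fun j hj => div_mul_cancel₀ _ ((hJ1 j).1 hj)⟩
  obtain ⟨e⟩ : Nonempty (J1 ≃ Fin J1.card) := ⟨J1.equivFin⟩
  obtain ⟨b, hb⟩ : ∃ b : Fin J1.card → k, ∀ i, b i = gb (e.symm i) := ⟨_, fun _ => rfl⟩
  have hbinj : Function.Injective b := by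
    intro i i' hii
    rw [hb, hb] at hii
    have h1 := hgb _ (e.symm i).2
    have h2 := hgb _ (e.symm i').2
    rw [hii] at h1
    have h3 : (A * D - B * G) * (a (e.symm i) - a (e.symm i')) = 0 := by
      linear_combination (-(G * a (e.symm i') + D)) * h1 + (G * a (e.symm i) + D) * h2
    have h4 := ha (sub_eq_zero.1 ((mul_eq_zero.1 h3).resolve_left hΔk))
    exact e.symm.injective (Subtype.ext h4)
  have hbdeg : ∀ i, (minpoly K (b i)).natDegree ≤ 2 * r + 1 := by
    intro i
    refine le_trans ?_ (hdeg (e.symm i))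
    have h1 := hgb _ (e.symm i).2
    have h2 := (hJ1 _).1 (e.symm i).2
    rw [hb]
    rw [hA, hB, hG, hD] at h1
    rw [hG, hD] at h2
    exact deg_mob h1 h2
  obtain ⟨n, hn0, hn⟩ := sepZ (({A, B, G, D, A * D - B * G} : Finset k) ∪
    Finset.univ.image (fun j => G * a j + D))
  obtain ⟨C1, hC1⟩ := hE2 k J1.card b hbinj hbdeg (insert n S) (κ / 2) (half_pos hκ)
  obtain ⟨C2, hC2⟩ := hE2 k 1 (fun _ => 0) (Function.injective_of_subsingleton _)
    (fun _ => by rw [minpoly.zero, natDegree_X]; omega) (insert n S) (κ / 2) (half_pos hκ)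
  obtain ⟨C3, hC30, hC3⟩ := ht_mob hΔk
  refine ⟨|C1| + |C2| + |(q : ℝ) - κ| * (r * C3), ?_⟩
  intro M _ _ _ _ _ t x ht hx hne hxr hxE hta W hW
  have hfdM : FiniteDimensional K M := Module.Finite.of_restrictScalars_finite ℚ K M
  rw [IsScalarTower.algebraMap_apply K k M, IsScalarTower.algebraMap_apply K k M,
    IsScalarTower.algebraMap_apply K k M, IsScalarTower.algebraMap_apply K k M, ← hA, ← hB, ← hG,
    ← hD] at hx
  rw [IsScalarTower.algebraMap_apply K k M, IsScalarTower.algebraMap_apply K k M, ← hG,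
    ← hD] at hne
  have hxt := adj_mob hΔk ht hx hne
  have hkM : (finrank k M : ℝ) ≤ r := by
    have := deg_le (K := K) hxt
    rw [hxr] at this
    exact_mod_cast this
  have hht : logHeight₁ t ≤ logHeight₁ x + r * C3 :=
    (hC3 M t x hx hne).trans (by
      have := mul_le_mul_of_nonneg_right hkM hC30
      linarith)
  have hx0h := zero_le_logHeight₁ x
  have ht0h := zero_le_logHeight₁ t
  have hW0 : 0 ≤ ∑ w ∈ W, lN w := Finset.sum_nonneg fun w _ => lN_nonneg w
  have hi : IsIntegral K x := Algebra.IsIntegral.isIntegral x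
  -- good primes
  have hgS : ∀ w : HeightOneSpectrum (𝓞 M), (∀ p ∈ insert n S, p ≠ 0 → (p : 𝓞 M) ∉ w.asIdeal) →
      ∀ p ∈ S, p ≠ 0 → (p : 𝓞 M) ∉ w.asIdeal := fun w hw p hp =>
    hw p (Finset.mem_insert_of_mem hp)
  have hg : ∀ w : HeightOneSpectrum (𝓞 M), (∀ p ∈ insert n S, p ≠ 0 → (p : 𝓞 M) ∉ w.asIdeal) →
      ∀ z ∈ (({A, B, G, D, A * D - B * G} : Finset k) ∪
        Finset.univ.image (fun j => G * a j + D)), z ≠ 0 →
        w.valuation M (algebraMap k M z) = 1 := fun w hw =>
    hn M w (hw n (Finset.mem_insert_self _ _) hn0)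
  have hg' : ∀ w : HeightOneSpectrum (𝓞 M), (∀ p ∈ insert n S, p ≠ 0 → (p : 𝓞 M) ∉ w.asIdeal) →
      ∀ z ∈ (({A, B, G, D, A * D - B * G} : Finset k) ∪
        Finset.univ.image (fun j => G * a j + D)),
        w.valuation M (algebraMap k M z) ≤ 1 := by
    intro w hw z hz
    by_cases hz0 : z = 0
    · rw [hz0, map_zero, map_zero]; exact zero_le_one
    · exact (hg w hw z hz hz0).le
  have mA : A ∈ (({A, B, G, D, A * D - B * G} : Finset k) ∪
        Finset.univ.image (fun j => G * a j + D)) := by simp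
  have mB : B ∈ (({A, B, G, D, A * D - B * G} : Finset k) ∪
        Finset.univ.image (fun j => G * a j + D)) := by simp
  have mG : G ∈ (({A, B, G, D, A * D - B * G} : Finset k) ∪
        Finset.univ.image (fun j => G * a j + D)) := by simp
  have mD : D ∈ (({A, B, G, D, A * D - B * G} : Finset k) ∪
        Finset.univ.image (fun j => G * a j + D)) := by simp
  have mΔ : A * D - B * G ∈ (({A, B, G, D, A * D - B * G} : Finset k) ∪
        Finset.univ.image (fun j => G * a j + D)) := by simp
  have mj : ∀ j, G * a j + D ∈ (({A, B, G, D, A * D - B * G} : Finset k) ∪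
        Finset.univ.image (fun j => G * a j + D)) := fun j =>
    Finset.mem_union_right _ (Finset.mem_image.2 ⟨j, Finset.mem_univ _, rfl⟩)
  -- the points `b j`
  have hk1 : ((J1.card : ℝ) - κ / 2) * logHeight₁ x ≤
      ∑ w ∈ W.filter (fun w => w.valuation M x ≤ 1), lN w + C1 := by
    refine hC1 M x hxt hxr (fun h => hxE (Or.inl h)) ?_ _ ?_
    · intro i hxi
      have h1 := congrArg (algebraMap k M) (hgb _ (e.symm i).2)
      rw [← hb, map_mul, map_add, map_mul, map_add, map_mul, ← hxi] at h1
      have h3 : algebraMap k M (A * D - B * G) * (t - algebraMap k M (a (e.symm i))) = 0 := by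
        rw [map_sub, map_mul, map_mul]
        linear_combination (-(algebraMap k M G * algebraMap k M (a (e.symm i)) +
          algebraMap k M D)) * hx + (algebraMap k M G * t + algebraMap k M D) * h1
      have h4 := (mul_eq_zero.1 h3).resolve_left
        (fun h => hΔk ((map_eq_zero (algebraMap k M)).1 h))
      exact hta _ (sub_eq_zero.1 h4)
    · rintro w hw hwx ⟨i, hwi⟩
      rw [Finset.mem_filter]
      refine ⟨?_, hwx⟩
      have h1 := congrArg (algebraMap k M) (hgb _ (e.symm i).2)
      rw [← hb, map_mul, map_add, map_mul, map_add, map_mul] at h1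
      have h2 := near1 (w.valuation M) (A := algebraMap k M A) (B := algebraMap k M B)
        (G := algebraMap k M G) (D := algebraMap k M D)
        (by rw [← map_mul, ← map_mul, ← map_sub]; exact hg w hw _ mΔ hΔk)
        (hg' w hw _ mB) (hg' w hw _ mG) (hg' w hw _ mD) hx h1
        (by rw [← map_mul, ← map_add]; exact hg w hw _ (mj _) ((hJ1 _).1 (e.symm i).2)) hwx hwi
      exact hW w (hgS w hw) h2.1 ⟨_, h2.2⟩
  have hmain : ((q : ℝ) - κ) * logHeight₁ x ≤ ∑ w ∈ W, lN w + (|C1| + |C2|) := by
    have hsum := Finset.sum_filter_add_sum_filter_not W (fun w => w.valuation M x ≤ 1) (fun w => lN w)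
    have hp2 : 0 ≤ ∑ w ∈ W.filter (fun w => ¬ w.valuation M x ≤ 1), lN w :=
      Finset.sum_nonneg fun w _ => lN_nonneg w
    have c1 := le_abs_self C1
    have c2 := le_abs_self C2
    have c1' := abs_nonneg C1
    have c2' := abs_nonneg C2
    have hκx : 0 ≤ κ * logHeight₁ x := mul_nonneg hκ.le hx0h
    by_cases hJ0 : ∀ j, j ∈ J1
    · have h1 : J1.card = q := by
        rw [Finset.eq_univ_of_forall hJ0, Finset.card_univ, Fintype.card_fin]
      rw [h1] at hk1
      nlinarith
    · push Not at hJ0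
      obtain ⟨j0, hj0⟩ := hJ0
      have hj0' : G * a j0 + D = 0 := by
        by_contra hcon
        exact hj0 ((hJ1 j0).2 hcon)
      have hG0 : G ≠ 0 := by
        intro hG0
        rw [hG0, zero_mul, zero_add] at hj0'
        apply hΔk
        rw [hG0, hj0', mul_zero, mul_zero, sub_zero]
      have hJe : J1 = Finset.univ.erase j0 := by
        ext j
        rw [Finset.mem_erase, hJ1]
        constructor
        · intro hj
          refine ⟨fun hjj => hj (by rw [hjj]; exact hj0'), Finset.mem_univ _⟩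
        · rintro ⟨hj, -⟩ hcon
          apply hj
          apply ha
          have h3 : G * (a j - a j0) = 0 := by linear_combination hcon - hj0'
          exact sub_eq_zero.1 ((mul_eq_zero.1 h3).resolve_left hG0)
      have hcard : (J1.card : ℝ) = q - 1 := by
        have h1 : J1.card + 1 = q := by
          rw [hJe, Finset.card_erase_add_one (Finset.mem_univ _), Finset.card_univ,
            Fintype.card_fin]
        have h2 : ((J1.card + 1 : ℕ) : ℝ) = (q : ℝ) := by exact_mod_cast h1
        push_cast at h2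
        linarith
      rw [hcard] at hk1
      by_cases hx0 : x = 0
      · rw [hx0, logHeight₁_zero, mul_zero]
        linarith
      · have hy : x⁻¹ ≠ 0 := inv_ne_zero hx0
        have hk2 : (((1 : ℕ) : ℝ) - κ / 2) * logHeight₁ x⁻¹ ≤
            ∑ w ∈ W.filter (fun w => ¬ w.valuation M x ≤ 1), lN w + C2 := by
          refine hC2 M x⁻¹ ?_ (by rw [deg_inv hi hx0, hxr]) ?_ (fun _ => by rw [map_zero]; exact hy)
            _ ?_
          · rw [eq_top_iff, ← hxt, IntermediateField.adjoin_simple_le_iff]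
            have h1 := (IntermediateField.adjoin k {x⁻¹}).inv_mem
              (IntermediateField.mem_adjoin_simple_self k x⁻¹)
            rwa [inv_inv] at h1
          · intro hmem
            rw [minpoly_inv hi hx0] at hmem
            exact hxE (Or.inr ⟨coeff0_ne hi hx0, hmem⟩)
          · rintro w hw _ ⟨_, hwy⟩
            rw [map_zero, sub_zero] at hwy
            rw [Finset.mem_filter]
            have h2 := near2 (w.valuation M) (A := algebraMap k M A) (B := algebraMap k M B)
              (G := algebraMap k M G) (D := algebraMap k M D) (a := algebraMap k M (a j0))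
              (hg' w hw _ mA) (hg' w hw _ mB) (hg w hw _ mG hG0) (hg' w hw _ mD) hx
              (by rw [← map_mul, ← map_add, hj0', map_zero]) (mul_inv_cancel₀ hx0) hwy
            refine ⟨hW w (hgS w hw) h2.1 ⟨_, h2.2⟩, ?_⟩
            rw [not_le]
            have hvx : w.valuation M x ≠ 0 := (Valuation.ne_zero_iff _).2 hx0
            rw [map_inv₀] at hwy
            exact (inv_lt_one₀ (zero_lt_iff.2 hvx)).1 hwy
        rw [logHeight₁_inv, Nat.cast_one] at hk2
        nlinarith
  -- conclusion
  have hc3 : 0 ≤ (r : ℝ) * C3 := mul_nonneg (Nat.cast_nonneg _) hC30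
  rcases le_or_gt 0 ((q : ℝ) - κ) with hq | hq
  · rw [abs_of_nonneg hq]
    have h1 := mul_le_mul_of_nonneg_left hht hq
    nlinarith
  · have h1 : ((q : ℝ) - κ) * logHeight₁ t ≤ 0 := mul_nonpos_of_nonpos_of_nonneg hq.le ht0h
    have h2 : 0 ≤ |(q : ℝ) - κ| * (r * C3) := mul_nonneg (abs_nonneg _) hc3
    have c1' := abs_nonneg C1
    have c2' := abs_nonneg C2
    linarith

end Pool.Agent.N707.DRVkG
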